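import Pool.Agent.Lib.MP_688fd0_co.LIN.Iface
import Pool.Agent.Lib.MP_688fd0_co.LP.ConnBasic

/-!
Isolating connectivity (Paper.md, section 1).
-/

set_option autoImplicit false

namespace Pool.Agent.Lib.MP_688fd0_co.LIN.H22

open Classical
open Pool.Agent.Lib.MP_688fd0_co.LP (IsP IsPB Conn Cyc Symm cay)

universe u

section basic

variable {V : Type u} [Fintype V] {H : SimpleGraph V}

theorem mem_cov {v : V} : v ∈ cov H ↔ ∃ w, H.Adj v w := by
  simp [cov]

theorem mem_cyc {v w : V} : w ∈ cyc H v ↔ H.Reachable v w := by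
  simp [cyc]

theorem cov_of_reachable {v w : V} (hv : v ∈ cov H) (h : H.Reachable v w) : w ∈ cov H := by
  by_cases hvw : v = w
  · exact hvw ▸ hv
  · obtain ⟨p⟩ := h.symm
    cases p with
    | nil => exact absurd rfl hvw
    | cons hadj _ => exact mem_cov.2 ⟨_, hadj⟩

theorem cyc_eq_of_reachable {v w : V} (h : H.Reachable v w) : cyc H w = cyc H v := by
  ext x
  rw [mem_cyc, mem_cyc]
  exact ⟨fun hx => h.trans hx, fun hx => h.symm.trans hx⟩

theorem hcls_of_mem {v : V} (hv : v ∈ cov H) : hcls H v = some (cyc H v) := by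
  simp [hcls, hv]

end basic

theorem iso (hB : BaseStatement.{u}) (hM : MonoStatement.{u}) : IsoStatement.{u} := by
  intro V _ G H hvt hcf l q r hlen hN hlr hq S hS Y hY
  obtain ⟨-, hiso, -, hb0, hmono, hDn, D, hD⟩ := hB V G hvt
  have hMo := hM V G hvt D hD
  by_contra hcon
  -- the class `S`
  obtain ⟨v0, hv0, rfl⟩ : ∃ v0 ∈ cov H, cyc H v0 = S := by
    simpa [cycs] using hS
  -- another class
  obtain ⟨v1, hv1, hne⟩ : ∃ v1 ∈ cov H, cyc H v1 ≠ cyc H v0 := by
    by_contra hno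
    push Not at hno
    have hsub : cycs H ⊆ {cyc H v0} := by
      intro T hT
      obtain ⟨v, hv, rfl⟩ : ∃ v ∈ cov H, cyc H v = T := by
        simpa [cycs] using hT
      simpa using hno v hv
    have := Finset.card_le_card hsub
    unfold ncyc at hN
    simp at this
    omega
  set F : Set V := {x | x ∉ Y} with hF
  set X : Finset V := Finset.univ.filter (fun x => ∃ a ∈ cyc H v0, Conn G F a x) with hX
  have hXm : ∀ x, x ∈ X ↔ ∃ a ∈ cyc H v0, Conn G F a x := by
    intro x; simp [hX]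
  have hXF : ∀ x ∈ X, x ∉ Y := by
    intro x hx
    obtain ⟨a, -, h⟩ := (hXm x).1 hx
    exact h.right
  -- other classes avoid `X`
  have hXo : ∀ b ∈ cov H, cyc H b ≠ cyc H v0 → b ∉ X := by
    intro b hb hbne hbX
    obtain ⟨a, ha, hab⟩ := (hXm b).1 hbX
    obtain ⟨p, hp, hpF⟩ := hab.exists_path
    apply hcon
    have ha' := mem_cyc.1 ha
    refine ⟨p, hp.1, ⟨a, hp.2.1, ?_⟩, ⟨b, cyc H b, hp.2.2, hcls_of_mem hb, hbne⟩, hpF⟩
    rw [hcls_of_mem (cov_of_reachable hv0 ha'), cyc_eq_of_reachable ha']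
  set X' : Finset V := Finset.univ.filter (fun x => x ∉ X ∧ x ∉ Y) with hX'
  have hX'm : ∀ x, x ∈ X' ↔ x ∉ X ∧ x ∉ Y := by
    intro x; simp [hX']
  have hbdX : bd G X ⊆ Y := by
    intro y hy
    obtain ⟨hyX, x, hx, hxy⟩ : y ∉ X ∧ ∃ x ∈ X, G.Adj x y := by
      simpa [bd] using hy
    by_contra hyY
    obtain ⟨a, ha, hax⟩ := (hXm x).1 hx
    exact hyX ((hXm y).2 ⟨a, ha, hax.tail hxy hyY⟩)
  have hbdX' : bd G X' ⊆ Y := by
    intro y hy
    obtain ⟨hyX, x, hx, hxy⟩ : y ∉ X' ∧ ∃ x ∈ X', G.Adj x y := by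
      simpa [bd] using hy
    by_contra hyY
    have hyX2 : y ∈ X := by
      by_contra hcc
      exact hyX ((hX'm y).2 ⟨hcc, hyY⟩)
    obtain ⟨hx1, hx2⟩ := (hX'm x).1 hx
    obtain ⟨a, ha, hay⟩ := (hXm y).1 hyX2
    exact hx1 ((hXm x).2 ⟨a, ha, hay.tail hxy.symm hx2⟩)
  -- sizes
  have hXc : l ≤ X.card + Y.card := by
    have h1 : cyc H v0 ⊆ X ∪ Y := by
      intro x hx
      by_cases hxY : x ∈ Y
      · exact Finset.mem_union_right _ hxY
      · exact Finset.mem_union_left _ ((hXm x).2 ⟨x, hx, Conn.refl hxY⟩)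
    exact (hlen v0 hv0).trans ((Finset.card_le_card h1).trans (Finset.card_union_le _ _))
  have hX'c : l ≤ X'.card + Y.card := by
    have h1 : cyc H v1 ⊆ X' ∪ Y := by
      intro x hx
      by_cases hxY : x ∈ Y
      · exact Finset.mem_union_right _ hxY
      · have hx' := mem_cyc.1 hx
        refine Finset.mem_union_left _ ((hX'm x).2 ⟨hXo x (cov_of_reachable hv1 hx') ?_, hxY⟩)
        rw [cyc_eq_of_reachable hx']
        exact hne
    exact (hlen v1 hv1).trans ((Finset.card_le_card h1).trans (Finset.card_union_le _ _))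
  have hdisj : Disjoint X X' := by
    rw [Finset.disjoint_left]
    intro x hx hx'
    exact ((hX'm x).1 hx').1 hx
  have hsum : X.card + X'.card ≤ Fintype.card V := by
    rw [← Finset.card_union_of_disjoint hdisj]
    exact Finset.card_le_univ _
  -- the smaller side
  obtain ⟨W, hW1, hW2, hW3⟩ : ∃ W : Finset V, bd G W ⊆ Y ∧ l ≤ W.card + Y.card ∧
      2 * W.card ≤ Fintype.card V := by
    rcases le_total X.card X'.card with h | h
    · exact ⟨X, hbdX, hXc, by omega⟩
    · exact ⟨X', hbdX', hX'c, by omega⟩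
  have h16 : 16 * q ≤ bn G r := by
    refine le_trans ?_ hq
    nlinarith [Nat.zero_le (r * q)]
  have hWl : l ≤ 2 * W.card := by omega
  have hex : ∃ s, 2 * W.card ≤ bn G s := ⟨D, by rw [hDn D hD]; exact hW3⟩
  set s := Nat.find hex with hs
  have hs1 : 2 * W.card ≤ bn G s := Nat.find_spec hex
  have hsD : s ≤ D := Nat.find_min' hex (by rw [hDn D hD]; exact hW3)
  have hrs : r < s := by
    by_contra hcc
    push Not at hcc
    have := hmono s r hcc
    omega
  obtain ⟨t, ht⟩ : ∃ t, s = t + 1 := ⟨s - 1, by omega⟩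
  have hts : bn G t < 2 * W.card := by
    have := Nat.find_min hex (m := t) (by omega)
    omega
  have hM1 := hMo r t (by omega) (by omega)
  have hI := hiso W s hs1
  have hbY : (bd G W).card ≤ Y.card := Finset.card_le_card hW1
  -- arithmetic
  have h1 : W.card ≤ 2 * (t + 1) * Y.card := by
    rw [ht] at hI
    exact hI.trans (Nat.mul_le_mul_left _ hbY)
  have h2 : bn G t < 4 * (t + 1) * Y.card := by
    have : 4 * (t + 1) * Y.card = 2 * (2 * (t + 1) * Y.card) := by ring
    omega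
  have h3 : (t + 1) * bn G r < (t + 1) * (16 * (r + 1) * Y.card) := by
    calc (t + 1) * bn G r ≤ 4 * (r + 1) * bn G t := hM1
      _ < 4 * (r + 1) * (4 * (t + 1) * Y.card) := Nat.mul_lt_mul_of_pos_left h2 (by positivity)
      _ = (t + 1) * (16 * (r + 1) * Y.card) := by ring
  have h4 : bn G r < 16 * (r + 1) * Y.card := Nat.lt_of_mul_lt_mul_left h3
  have h5 : 16 * (r + 1) * Y.card ≤ 16 * (r + 1) * q := Nat.mul_le_mul_left _ hY.le
  omega

end Pool.Agent.Lib.MP_688fd0_co.LIN.H22
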